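import Pool.Agent.SQD.Stmts

/-!
# CNT: the count
-/

set_option autoImplicit false

open Filter

open scoped BigOperators Topology

noncomputable section

namespace Pool.Agent.SQD.H84

open Pool.Agent.SQD

theorem cnt (hCNS : CnsStmt) (hCNB : CnbStmt) (hCNG : CngStmt) (hCNX : CnxStmt) : CntStmt := by
  intro A
  obtain ⟨x1, h1⟩ := hCNS A
  obtain ⟨x2, h2⟩ := hCNB A
  obtain ⟨x3, h3⟩ := hCNG A
  obtain ⟨x4, h4⟩ := hCNX A
  set x0 : ℕ := max (max x1 x2) (max x3 x4) with hx0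
  refine ⟨21 + (Real.log ((x0 : ℝ) + 2)) ^ A, ?_⟩
  intro x hx
  have hlog : 0 < Real.log x := Real.log_pos (by
    have : (2 : ℝ) ≤ (x : ℝ) := by exact_mod_cast hx
    linarith)
  have hlogA : 0 < (Real.log x) ^ A := pow_pos hlog A
  have hlog0 : 0 ≤ Real.log ((x0 : ℝ) + 2) := Real.log_nonneg (by
    have : (0 : ℝ) ≤ (x0 : ℝ) := Nat.cast_nonneg _
    linarith)
  have hfin : ∀ S : Set ℕ, S ⊆ {n | 1 ≤ n ∧ n ≤ x} → S.Finite := fun S hS =>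
    (Set.finite_Icc 1 x).subset (fun n hn => ⟨(hS hn).1, (hS hn).2⟩)
  have hx' : (0 : ℝ) ≤ (x : ℝ) := Nat.cast_nonneg _
  by_cases hxx : x0 ≤ x
  · have g1 := h1 x (le_trans (le_trans (le_max_left _ _) (le_max_left _ _)) hxx)
    have g2 := h2 x (le_trans (le_trans (le_max_right _ _) (le_max_left _ _)) hxx)
    have g3 := h3 x (le_trans (le_trans (le_max_left _ _) (le_max_right _ _)) hxx)
    have g4 := h4 x (le_trans (le_trans (le_max_right _ _) (le_max_right _ _)) hxx)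
    set S1 : Set ℕ := {n : ℕ | 1 ≤ n ∧ n ≤ x ∧ ∃ d : ℕ, ¬ IsSquare d ∧ d ∣ n ∧ d * d ≤ x ∧
      (d : ℝ) ≤ Real.exp ((Real.log x) ^ (1 / 16 : ℝ)) ∧ Spl (LA A) 1 d n} with hS1
    set S2 : Set ℕ := {n : ℕ | 1 ≤ n ∧ n ≤ x ∧ Spl (LA A) 2 2 n} with hS2
    set S3 : Set ℕ := {n : ℕ | 1 ≤ n ∧ n ≤ x ∧ ∃ d : ℕ, 1 ≤ d ∧ d ∣ n ∧ d * d ≤ x ∧
      |TT (wq A x) (zq x) d| < 1 ∧ Spl (LA A) 1 d n} with hS3
    set S4 : Set ℕ := {n : ℕ | 1 ≤ n ∧ n ≤ x ∧ ∃ d : ℕ, d ∣ n ∧ d * d ≤ x ∧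
      Real.exp ((Real.log x) ^ (1 / 16 : ℝ)) < d ∧
      1 ≤ |TT (wq A x) (zq x) d|} with hS4
    have f1 : S1.Finite := hfin S1 fun n hn => ⟨hn.1, hn.2.1⟩
    have f2 : S2.Finite := hfin S2 fun n hn => ⟨hn.1, hn.2.1⟩
    have f3 : S3.Finite := hfin S3 fun n hn => ⟨hn.1, hn.2.1⟩
    have f4 : S4.Finite := hfin S4 fun n hn => ⟨hn.1, hn.2.1⟩
    have hsub : {n : ℕ | 1 ≤ n ∧ n ≤ x ∧ ((∃ d : ℕ, ¬ IsSquare d ∧ d ∣ n ∧ d * d ≤ n ∧
        Spl (LA A) 1 d n) ∨ Spl (LA A) 2 2 n)} ⊆ (S1 ∪ S2) ∪ (S3 ∪ S4) := by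
      rintro n ⟨hn1, hn2, hn3⟩
      rcases hn3 with ⟨d, hd1, hd2, hd3, hd4⟩ | hn3
      · have hdx : d * d ≤ x := le_trans hd3 hn2
        by_cases c1 : (d : ℝ) ≤ Real.exp ((Real.log x) ^ (1 / 16 : ℝ))
        · exact Or.inl (Or.inl ⟨hn1, hn2, d, hd1, hd2, hdx, c1, hd4⟩)
        · by_cases c2 : |TT (wq A x) (zq x) d| < 1
          · refine Or.inr (Or.inl ⟨hn1, hn2, d, ?_, hd2, hdx, c2, hd4⟩)
            rcases Nat.eq_zero_or_pos d with h0 | h0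
            · exact absurd (h0 ▸ ⟨0, by simp⟩ : IsSquare d) hd1
            · exact h0
          · exact Or.inr (Or.inr ⟨hn1, hn2, d, hd2, hdx, not_le.mp c1, not_lt.mp c2⟩)
      · exact Or.inl (Or.inr ⟨hn1, hn2, hn3⟩)
    have hcard : ({n : ℕ | 1 ≤ n ∧ n ≤ x ∧ ((∃ d : ℕ, ¬ IsSquare d ∧ d ∣ n ∧ d * d ≤ n ∧
        Spl (LA A) 1 d n) ∨ Spl (LA A) 2 2 n)}.ncard : ℝ) ≤
        S1.ncard + S2.ncard + (S3.ncard + S4.ncard) := by
      have e1 := Set.ncard_le_ncard hsub ((f1.union f2).union (f3.union f4))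
      have e2 := Set.ncard_union_le (S1 ∪ S2) (S3 ∪ S4)
      have e3 := Set.ncard_union_le S1 S2
      have e4 := Set.ncard_union_le S3 S4
      have e5 := le_trans e1 (le_trans e2 (Nat.add_le_add e3 e4))
      exact_mod_cast e5
    refine le_trans hcard ?_
    have e6 : (6 * x / (Real.log x) ^ A + 3 * x / (Real.log x) ^ A) +
        (6 * x / (Real.log x) ^ A + 6 * x / (Real.log x) ^ A) = 21 * x / (Real.log x) ^ A := by
      ring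
    refine le_trans (add_le_add (add_le_add g1 g2) (add_le_add g3 g4)) ?_
    rw [e6]
    apply div_le_div_of_nonneg_right _ hlogA.le
    apply mul_le_mul_of_nonneg_right _ hx'
    have : 0 ≤ (Real.log ((x0 : ℝ) + 2)) ^ A := pow_nonneg hlog0 A
    linarith
  · push Not at hxx
    have e1 : ({n : ℕ | 1 ≤ n ∧ n ≤ x ∧ ((∃ d : ℕ, ¬ IsSquare d ∧ d ∣ n ∧ d * d ≤ n ∧
        Spl (LA A) 1 d n) ∨ Spl (LA A) 2 2 n)}.ncard : ℝ) ≤ x := by
      have a1 : {n : ℕ | 1 ≤ n ∧ n ≤ x ∧ ((∃ d : ℕ, ¬ IsSquare d ∧ d ∣ n ∧ d * d ≤ n ∧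
        Spl (LA A) 1 d n) ∨ Spl (LA A) 2 2 n)} ⊆ ((Finset.Icc 1 x : Finset ℕ) : Set ℕ) := by
        intro n hn
        rw [Finset.mem_coe, Finset.mem_Icc]
        exact ⟨hn.1, hn.2.1⟩
      have a2 := Set.ncard_le_ncard a1 (Finset.finite_toSet _)
      rw [Set.ncard_coe_finset, Nat.card_Icc] at a2
      have a3 : x + 1 - 1 = x := by omega
      rw [a3] at a2
      exact_mod_cast a2
    refine le_trans e1 ?_
    rw [le_div_iff₀ hlogA]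
    have e2 : (Real.log x) ^ A ≤ (Real.log ((x0 : ℝ) + 2)) ^ A := by
      apply pow_le_pow_left₀ hlog.le
      apply Real.log_le_log
      · have : (2 : ℝ) ≤ (x : ℝ) := by exact_mod_cast hx
        linarith
      · have : (x : ℝ) ≤ (x0 : ℝ) := by exact_mod_cast hxx.le
        linarith
    calc (x : ℝ) * (Real.log x) ^ A ≤ x * (21 + (Real.log ((x0 : ℝ) + 2)) ^ A) := by
          apply mul_le_mul_of_nonneg_left _ hx'
          linarith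
      _ = (21 + (Real.log ((x0 : ℝ) + 2)) ^ A) * x := by ring

end Pool.Agent.SQD.H84
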